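import Pool.Agent.Helper89.GW.Stmts

set_option autoImplicit false

open scoped ContDiff Topology
open Set Filter

namespace GW

/-- the cut-off -/
noncomputable def fext_be (t₀ t₁ t : ℝ) : ℝ := Real.smoothTransition ((t₁ - t) / (t₁ - t₀))

theorem fext_one {t₀ t₁ t : ℝ} (h : t₀ < t₁) (ht : t ≤ t₀) : fext_be t₀ t₁ t = 1 := by
  unfold fext_be
  apply Real.smoothTransition.one_of_one_le
  rw [le_div_iff₀ (by linarith)]
  linarith

theorem fext_zero {t₀ t₁ t : ℝ} (h : t₀ < t₁) (ht : t₁ ≤ t) : fext_be t₀ t₁ t = 0 := by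
  unfold fext_be
  apply Real.smoothTransition.zero_of_nonpos
  exact div_nonpos_of_nonpos_of_nonneg (by linarith) (by linarith)

theorem fext_anti {t₀ t₁ : ℝ} (h : t₀ < t₁) : Antitone (fext_be t₀ t₁) := by
  intro a b hab
  unfold fext_be
  apply Real.smoothTransition.monotone
  apply div_le_div_of_nonneg_right _ (by linarith)
  linarith

theorem fext_smooth (t₀ t₁ : ℝ) : ContDiff ℝ ∞ (fext_be t₀ t₁) := by
  have h1 : ContDiff ℝ ∞ (fun t : ℝ => (t₁ - t) / (t₁ - t₀)) :=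
    (contDiff_const.sub contDiff_id).div_const _
  exact Real.smoothTransition.contDiff.comp h1

theorem fext_loc {t₀ t₁ t : ℝ} (h : t₀ < t₁) (ht : deriv (fext_be t₀ t₁) t ≠ 0) :
    t₀ < t ∧ t < t₁ := by
  constructor
  · by_contra h1
    apply ht
    have h2 : IsLocalMax (fext_be t₀ t₁) t := by
      refine Eventually.of_forall fun x => ?_
      rw [fext_one h (not_lt.1 h1)]
      exact Real.smoothTransition.le_one _
    exact h2.deriv_eq_zero
  · by_contra h1
    apply ht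
    have h2 : IsLocalMin (fext_be t₀ t₁) t := by
      refine Eventually.of_forall fun x => ?_
      rw [fext_zero h (not_lt.1 h1)]
      exact Real.smoothTransition.nonneg _
    exact h2.deriv_eq_zero

theorem st_FEXT (hG : ST_GLUE) : ST_FEXT := by
  intro L f t₀ t₁ ht hL hloc hslab
  have hN : IsCompact (L ∩ {p : E | p 2 ≤ t₁}) :=
    hL.inter_right (isClosed_le (continuous_apply 2) continuous_const)
  -- the covector `x dy - w dt`
  obtain ⟨b, hb⟩ : ∃ b : E → E →L[ℝ] ℝ, ∀ p u, b p u = p 0 * u 1 - p 3 * u 2 := by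
    refine ⟨fun p => p 0 • ContinuousLinearMap.proj 1 - p 3 • ContinuousLinearMap.proj 2,
      fun p u => ?_⟩
    simp
  obtain ⟨F, hF1, -, hF2⟩ := hG E (L ∩ {p : E | p 2 ≤ t₁}) (fun p => p 0 * p 1 - f p) b hN (by
    rintro n ⟨hnL, hnt⟩
    obtain ⟨V, hV, hnV, P, hP, hPq⟩ := hloc n hnL hnt
    refine ⟨V, hV, hnV, fun q => q 0 * q 1 - P q, ?_, ?_⟩
    · have h1 : ContDiff ℝ ∞ (fun q : E => q 0 * q 1) :=
        (contDiff_apply ℝ ℝ 0).mul (contDiff_apply ℝ ℝ 1)
      exact h1.contDiffOn.sub hP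
    · rintro m ⟨hmL, -⟩ hmV
      obtain ⟨h1, h2⟩ := hPq m hmL hmV
      refine ⟨by show m 0 * m 1 - P m = m 0 * m 1 - f m; rw [h1], ?_⟩
      have hPd : DifferentiableAt ℝ P m :=
        (hP.differentiableOn (by simp)).differentiableAt (hV.mem_nhds hmV)
      have h3 : HasFDerivAt (fun q : E => q 0) (ContinuousLinearMap.proj 0 : E →L[ℝ] ℝ) m :=
        (ContinuousLinearMap.proj 0 : E →L[ℝ] ℝ).hasFDerivAt
      have h4 : HasFDerivAt (fun q : E => q 1) (ContinuousLinearMap.proj 1 : E →L[ℝ] ℝ) m :=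
        (ContinuousLinearMap.proj 1 : E →L[ℝ] ℝ).hasFDerivAt
      have h5 := (h3.mul h4).sub hPd.hasFDerivAt
      have h6 := h5.fderiv
      refine ContinuousLinearMap.ext fun u => ?_
      rw [show (fun q : E => q 0 * q 1 - P q) = ((fun q : E => q 0) * fun q : E => q 1) - P from rfl,
        h6, hb]
      show (m 0 * u 1 + m 1 * u 0) - fderiv ℝ P m u = _
      rw [h2 u]
      ring)
  refine ⟨F, fext_be t₀ t₁, hL, ht, hF1, fext_smooth t₀ t₁, fun t h => fext_one ht h,
    fun t h => fext_zero ht h, fun t => Real.smoothTransition.nonneg _,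
    fun t => (fext_anti ht).deriv_nonpos, fun t h => fext_loc ht h, ?_, ?_⟩
  · intro p hp hpt u
    rw [(hF2 p ⟨hp, hpt⟩).2, hb]
  · intro p hp q hq h1 h2 h3 h4 h5 h6
    rw [(hF2 p ⟨hp, h2.le⟩).1, (hF2 q ⟨hq, by rw [mem_ofPred_eq, ← h5]; exact h2.le⟩).1, h3, h4]
    have h7 := hslab p hp q hq h1 h2 h3 h4 h5 h6
    linarith

end GW
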